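import Pool.Agent.H29.ENR.Stmts

/-!
Board enr (MP_d15c96_al): row CYR.
-/

set_option autoImplicit false

namespace Pool.ENR

open Pool.Agent.H81.ENG

theorem cyr_inv {T : Type} [Group T] [Finite T] (σ : MulAut T) (Γ : Subgroup T)
    (h : ∀ x ∈ Γ, σ x ∈ Γ) : ∀ x, x ∈ Γ ↔ σ x ∈ Γ := by
  intro x
  constructor
  · exact h x
  · intro hx
    have hle : Γ.map (σ : T ≃* T).toMonoidHom ≤ Γ := by
      rintro _ ⟨y, hy, rfl⟩
      exact h y hy
    have hcard : Nat.card Γ ≤ Nat.card (Γ.map (σ : T ≃* T).toMonoidHom) := by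
      have e := Γ.equivMapOfInjective (σ : T ≃* T).toMonoidHom (MulEquiv.injective _)
      exact (Nat.card_congr e.toEquiv).le
    have heq := Subgroup.eq_of_le_of_card_ge hle hcard
    rw [← heq] at hx
    obtain ⟨y, hy, hyx⟩ := hx
    have : y = x := σ.injective hyx
    exact this ▸ hy

theorem cyr_thm (h1 : CYPStmt) (h2 : QTLStmt) (h3 : CYBStmt) : CYRStmt := by
  intro T _ _ p b c σ hp hp2 hb hc hcyc d hL
  obtain ⟨s, n, lam, j, u, r, hs, hσs, hlam, hj, hj1, hσn, hu, hr, hrp, hnr, hσr⟩ :=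
    h1 T p c σ hp hc hcyc
  have : Fact p.Prime := ⟨hp⟩
  let Γ : Subgroup T := Subgroup.closure {s, n}
  have hsΓ : s ∈ Γ := Subgroup.subset_closure (by simp)
  have hnΓ : n ∈ Γ := Subgroup.subset_closure (by simp)
  have hle : Γ ≤ Γ.comap (σ : T ≃* T).toMonoidHom := by
    refine (Subgroup.closure_le _).2 ?_
    intro x hx
    simp only [Set.mem_insert_iff, Set.mem_singleton_iff] at hx
    rcases hx with rfl | rfl
    · change σ x ∈ Γ
      rw [hσs]; exact Γ.pow_mem hsΓ _
    · change σ x ∈ Γ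
      rw [hσn]; exact Γ.mul_mem (Γ.pow_mem hsΓ _) hnΓ
  have hΓ : ∀ x, x ∈ Γ ↔ σ x ∈ Γ := cyr_inv σ Γ (fun x hx => hle hx)
  have hcen : ∀ x ∈ Γ, x * n ^ r = n ^ r * x := by
    have h4 : Γ ≤ Subgroup.centralizer {n ^ r} := by
      refine (Subgroup.closure_le _).2 ?_
      intro x hx
      simp only [Set.mem_insert_iff, Set.mem_singleton_iff] at hx
      rw [SetLike.mem_coe, Subgroup.mem_centralizer_iff]
      intro y hy
      rw [Set.mem_singleton_iff] at hy
      subst hy
      rcases hx with rfl | rfl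
      · exact hnr
      · rw [← pow_succ, ← pow_succ']
    intro x hx
    have := (Subgroup.mem_centralizer_iff.1 (h4 hx)) (n ^ r) (by simp)
    exact this.symm
  let z : Γ := ⟨n ^ r, Γ.pow_mem hnΓ r⟩
  let K : Subgroup Γ := Subgroup.zpowers z
  have hK : K.Normal := by
    refine ⟨fun a ha g => ?_⟩
    obtain ⟨k, rfl⟩ := Subgroup.mem_zpowers_iff.1 ha
    have h5 : Commute g z := by
      apply Subtype.ext
      exact hcen g.1 g.2
    rw [(h5.zpow_right k).eq, mul_inv_cancel_right]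
    exact ha
  have hmap : K.map (restr σ Γ hΓ).toMonoidHom = K := by
    rw [MonoidHom.map_zpowers]
    congr 1
    apply Subtype.ext
    exact hσr
  let τ : MulAut (Γ ⧸ K) := QuotientGroup.congr K K (restr σ Γ hΓ) hmap
  let π : Γ →* Γ ⧸ K := QuotientGroup.mk' K
  have hπ : Function.Surjective π := QuotientGroup.mk'_surjective K
  have hτ : ∀ x : Γ, π ⟨σ x, (hΓ x).1 x.2⟩ = τ (π x) := fun x => rfl
  have hSL := h2 T (Γ ⧸ K) σ τ Γ hΓ π hπ hτ (p ^ b) d (pow_pos hp.pos b) hL
  let s' : Γ := ⟨s, hsΓ⟩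
  let n' : Γ := ⟨n, hnΓ⟩
  have htop : Subgroup.closure {s', n'} = (⊤ : Subgroup Γ) := by
    have h6 := Subgroup.closure_closure_coe_preimage (k := ({s, n} : Set T))
    have h7 : ((↑) ⁻¹' ({s, n} : Set T) : Set Γ) = {s', n'} := by
      ext x
      simp only [Set.mem_preimage, Set.mem_insert_iff, Set.mem_singleton_iff, s', n',
        Subtype.ext_iff]
    rw [← h7]
    exact h6
  have hclos : Subgroup.closure {π s', π n'} = (⊤ : Subgroup (Γ ⧸ K)) := by
    have h8 : ({π s', π n'} : Set (Γ ⧸ K)) = π '' {s', n'} := by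
      rw [Set.image_insert_eq, Set.image_singleton]
    rw [h8, ← MonoidHom.map_closure, htop, Subgroup.map_top_of_surjective π hπ]
  obtain ⟨c', rfl⟩ : ∃ c', c = c' + 1 := ⟨c - 1, by omega⟩
  have hord : orderOf (π s') = p ^ (c' + 1) := by
    apply orderOf_eq_prime_pow
    · intro h9
      rw [← map_pow, ← MonoidHom.mem_ker, QuotientGroup.ker_mk'] at h9
      obtain ⟨k, hk⟩ := Subgroup.mem_zpowers_iff.1 h9
      have h10 : (n ^ r) ^ k = s ^ p ^ c' := by
        have := congrArg Subtype.val hk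
        simpa [z, s'] using this
      have h11 : n * s ^ p ^ c' * n⁻¹ = s ^ p ^ c' := by
        rw [← h10]
        have : Commute n ((n ^ r) ^ k) := ((Commute.refl n).pow_right r).zpow_right k
        rw [this.eq, mul_inv_cancel_right]
      have h12 : n * s ^ p ^ c' * n⁻¹ = s ^ (p ^ c' * j) := by
        rw [← conj_pow, hj, ← pow_mul, mul_comm]
      rw [h12] at h11
      have h13 : s ^ (p ^ c' * j) = s ^ (p ^ c' * 1) := by rw [h11, mul_one]
      rw [pow_eq_pow_iff_modEq, hs, pow_succ] at h13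
      exact hj1 (Nat.ModEq.mul_left_cancel' (pow_ne_zero _ hp.ne_zero) h13)
    · rw [← map_pow]
      have : s' ^ p ^ (c' + 1) = 1 := by
        apply Subtype.ext
        have := pow_orderOf_eq_one s
        rw [hs] at this
        exact this
      rw [this, map_one]
  refine h3 (Γ ⧸ K) p r b (c' + 1) lam j u (π s') (π n') τ hp hp2 hr hrp hb hc hord hclos ?_ ?_
    hj1 ?_ hlam ?_ hu d hSL
  · rw [← map_pow, ← MonoidHom.mem_ker, QuotientGroup.ker_mk']
    exact Subgroup.mem_zpowers z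
  · rw [← map_inv, ← map_mul, ← map_mul, ← map_pow]
    congr 1
    apply Subtype.ext
    exact hj
  · rw [← hτ, ← map_pow]
    congr 1
    apply Subtype.ext
    exact hσs
  · rw [← hτ, ← map_pow, ← map_mul]
    congr 1
    apply Subtype.ext
    exact hσn

end Pool.ENR
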